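import Mathlib

/-!
Places of a number field, local heights and proximity functions of hypersurfaces in projective
space.
-/

namespace Pool.Agent.Lib.MP_17a322_nt.Proj

open NumberField

variable (K : Type*) [Field K] [NumberField K]

/-- The set `M_K` of places of the number field `K`. -/
abbrev Place := InfinitePlace K ⊕ FinitePlace K

variable {K}

/-- The absolute value of a place: for an infinite place given by `σ : K → ℂ` it is `|σ(x)|`; for
the finite place of a prime ideal `𝔭` it is `N(𝔭)^{-ord_𝔭(x)}`. -/
noncomputable def absv : Place K → AbsoluteValue K ℝ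
  | .inl v => v.val
  | .inr v => v.val

/-- The exponent that normalises `absv`: `2` for a complex place and `1` for all other places. The
product over all places of `absv v x ^ wt v` is `1` for `x ≠ 0`, and `log (absv v x ^ wt v)` is
`[K_v : ℚ_v] log |x|_v`, where `|·|_v` extends the standard absolute value of `ℚ_v`. -/
noncomputable def wt : Place K → ℕ
  | .inl v => v.mult
  | .inr _ => 1

/-- The maximum of the absolute values of the coordinates. -/
noncomputable def maxv {n : ℕ} (v : Place K) (x : Fin (n + 1) → K) : ℝ := ⨆ i, absv v (x i)

/-- The local height `log (|x|_v^d / |F(x)|_v)` of the hypersurface `F = 0`, where `F` is a form of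
degree `d`. -/
noncomputable def localHeight {n : ℕ} (v : Place K) (d : ℕ) (F : MvPolynomial (Fin (n + 1)) K)
    (x : Fin (n + 1) → K) : ℝ :=
  d * Real.log (maxv v x) - Real.log (absv v (MvPolynomial.eval x F))

/-- The proximity function `m_{S,D}` of the hypersurface `D : F = 0` of degree `d`. -/
noncomputable def proximity {n : ℕ} (S : Finset (Place K)) (d : ℕ)
    (F : MvPolynomial (Fin (n + 1)) K) (x : Fin (n + 1) → K) : ℝ :=
  (Module.finrank ℚ K : ℝ)⁻¹ * ∑ v ∈ S, wt v * localHeight v d F x

/-- The absolute logarithmic height on projective space. -/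
noncomputable def height {n : ℕ} (x : Fin (n + 1) → K) : ℝ :=
  (Module.finrank ℚ K : ℝ)⁻¹ * Height.logHeight x

end Pool.Agent.Lib.MP_17a322_nt.Proj
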