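import Mathlib
import Pool.Agent.Lib.MP_17a322_nt.Proj.Defs

/-!
The Liouville inequality for hypersurfaces.
-/

namespace Pool.Agent.Lib.MP_17a322_nt.Proj

open NumberField Function MvPolynomial

variable {K : Type*} [Field K] [NumberField K] {n : ℕ}

theorem finsum_place {g : Place K → ℝ} (hg : HasFiniteSupport fun v : FinitePlace K => g (.inr v)) :
    ∑ᶠ v, g v = ∑ v : InfinitePlace K, g (.inl v) + ∑ᶠ v : FinitePlace K, g (.inr v) := by
  classical
  have hfin : (support fun v : FinitePlace K => g (.inr v)).Finite := hg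
  have h1 : support g ⊆ (Finset.univ.disjSum hfin.toFinset : Finset (Place K)) := by
    intro v hv
    rcases v with v | v
    · simp
    · simp only [Finset.mem_coe, Finset.inr_mem_disjSum, Set.Finite.mem_toFinset]
      exact hv
  rw [finsum_eq_sum_of_support_subset _ h1, Finset.sum_disjSum]
  congr 1
  rw [finsum_eq_sum_of_support_subset (s := hfin.toFinset)]
  simp

theorem hasFiniteSupport_log {f : FinitePlace K → ℝ} (hf : f.HasFiniteMulSupport) :
    HasFiniteSupport fun v => Real.log (f v) := by
  refine Set.Finite.subset hf ?_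
  intro v hv
  rw [mem_mulSupport]
  intro h
  apply hv
  simp only
  rw [h, Real.log_one]

theorem maxv_pos (v : Place K) {x : Fin (n + 1) → K} (hx : x ≠ 0) : 0 < maxv v x := by
  obtain ⟨i, hi⟩ := Function.ne_iff.mp hx
  exact (((absv v).pos_iff.2 hi)).trans_le (Finite.le_ciSup (fun j => absv v (x j)) i)

theorem hasFiniteMulSupport_maxv {x : Fin (n + 1) → K} (hx : x ≠ 0) :
    HasFiniteMulSupport fun v : FinitePlace K => maxv (.inr v) x := by
  classical
  obtain ⟨i₀, hi₀⟩ := Function.ne_iff.mp hx
  have hfin : (⋃ i ∈ {i | x i ≠ 0}, mulSupport fun v : FinitePlace K => v (x i)).Finite := by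
    apply Set.Finite.biUnion (Set.toFinite _)
    intro i hi
    exact FinitePlace.hasFiniteMulSupport hi
  refine Set.Finite.subset hfin ?_
  intro v hv
  by_contra hcon
  apply hv
  simp only [Set.mem_iUnion, not_exists, mem_mulSupport, ne_eq, not_not] at hcon
  apply le_antisymm
  · refine ciSup_le fun i => ?_
    by_cases hi : x i = 0
    · rw [hi, map_zero]; exact zero_le_one
    · exact (hcon i hi).le
  · have := hcon i₀ hi₀
    calc (1 : ℝ) = v (x i₀) := this.symm
      _ ≤ _ := Finite.le_ciSup (fun j => absv (.inr v) (x j)) i₀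

theorem logHeight_eq {x : Fin (n + 1) → K} (hx : x ≠ 0) :
    Height.logHeight x = ∑ᶠ v, (wt v : ℝ) * Real.log (maxv v x) := by
  rw [finsum_place]
  · rw [Height.logHeight_eq_log_mulHeight, NumberField.mulHeight_eq hx, Real.log_mul]
    · congr 1
      · rw [Real.log_prod]
        · refine Finset.sum_congr rfl fun v _ => ?_
          rw [Real.log_pow]; rfl
        · intro v _
          exact (pow_pos (maxv_pos (.inl v) hx) _).ne'
      · change Real.log (∏ᶠ v : FinitePlace K, maxv (.inr v) x) = _
        rw [Real.log_finprod (fun v => maxv_pos (.inr v) hx)]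
        refine finsum_congr fun v => ?_
        simp only [wt, Nat.cast_one, one_mul]
    · exact (Finset.prod_pos fun v _ => pow_pos (maxv_pos (.inl v) hx) _).ne'
    · exact (finprod_induction (fun y : ℝ => 0 < y) one_pos (fun _ _ => mul_pos) fun v =>
        maxv_pos (.inr v) hx).ne'
  · simp only [wt, Nat.cast_one, one_mul]
    exact hasFiniteSupport_log (hasFiniteMulSupport_maxv hx)

theorem product_formula {a : K} (ha : a ≠ 0) :
    ∑ᶠ v, (wt v : ℝ) * Real.log (absv v a) = 0 := by
  rw [finsum_place]
  · have h := prod_abs_eq_one ha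
    have h1 := congrArg Real.log h
    rw [Real.log_one, Real.log_mul] at h1
    · rw [← h1]
      congr 1
      · rw [Real.log_prod]
        · refine Finset.sum_congr rfl fun v _ => ?_
          rw [Real.log_pow]; rfl
        · intro v _
          exact (pow_pos (v.1.pos_iff.2 ha) _).ne'
      · rw [Real.log_finprod (fun v => v.1.pos_iff.2 ha)]
        refine finsum_congr fun v => ?_
        simp only [wt, Nat.cast_one, one_mul]
        rfl
    · exact (Finset.prod_pos fun v _ => pow_pos (v.1.pos_iff.2 ha) _).ne'
    · exact (finprod_induction (fun y : ℝ => 0 < y) one_pos (fun _ _ => mul_pos) fun v =>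
        v.1.pos_iff.2 ha).ne'
  · simp only [wt, Nat.cast_one, one_mul]
    exact hasFiniteSupport_log (FinitePlace.hasFiniteMulSupport ha)

/-- The constant in the upper bound of the values of `F`. -/
noncomputable def cst (F : MvPolynomial (Fin (n + 1)) K) : Place K → ℝ
  | .inl v => max ((AddMonoidAlgebra.coeff F).sum fun _ c => v.val c) 1
  | .inr v => max (⨆ s : F.support, v.val (coeff s F)) 1

theorem one_le_cst (F : MvPolynomial (Fin (n + 1)) K) (v : Place K) : 1 ≤ cst F v := by
  rcases v with v | v <;> exact le_max_right _ _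

theorem absv_eval_le {F : MvPolynomial (Fin (n + 1)) K} {d : ℕ} (hF : F.IsHomogeneous d)
    (v : Place K) (x : Fin (n + 1) → K) :
    absv v (eval x F) ≤ cst F v * maxv v x ^ d := by
  have h0 : 0 ≤ maxv v x := Real.iSup_nonneg_of_nonnegHomClass _ _
  rcases v with v | v
  · refine (v.val.eval_mvPolynomial_le hF x).trans ?_
    exact mul_le_mul_of_nonneg_right (le_max_left _ _) (pow_nonneg h0 _)
  · have hv : IsNonarchimedean v.val := FinitePlace.add_le v
    refine (hv.eval_mvPolynomial_le hF x).trans ?_
    exact mul_le_mul_of_nonneg_right (le_max_left _ _) (pow_nonneg h0 _)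

theorem hasFiniteMulSupport_cst (F : MvPolynomial (Fin (n + 1)) K) :
    HasFiniteMulSupport fun v : FinitePlace K => cst F (.inr v) := by
  classical
  have hfin : (⋃ s ∈ F.support, mulSupport fun v : FinitePlace K => v (coeff s F)).Finite := by
    apply Set.Finite.biUnion (Finset.finite_toSet _)
    intro s hs
    exact FinitePlace.hasFiniteMulSupport (mem_support_iff.1 hs)
  refine Set.Finite.subset hfin ?_
  intro v hv
  by_contra hcon
  apply hv
  simp only [Set.mem_iUnion, not_exists, mem_mulSupport, ne_eq, not_not] at hcon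
  apply max_eq_right
  apply Real.iSup_le _ zero_le_one
  intro s
  exact (hcon s.1 s.2).le

/-- Liouville's inequality. -/
theorem liouville {F : MvPolynomial (Fin (n + 1)) K} {d : ℕ} (hF : F.IsHomogeneous d) :
    ∃ C : ℝ, 0 ≤ C ∧ ∀ x : Fin (n + 1) → K, x ≠ 0 → eval x F ≠ 0 → ∀ S : Finset (Place K),
      ∑ v ∈ S, (wt v : ℝ) * localHeight v d F x ≤ d * Height.logHeight x + C := by
  classical
  refine ⟨∑ᶠ v, (wt v : ℝ) * Real.log (cst F v),
    finsum_nonneg fun v => mul_nonneg (Nat.cast_nonneg _) (Real.log_nonneg (one_le_cst F v)), ?_⟩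
  intro x hx hFx S
  set g : Place K → ℝ := fun v =>
    (wt v : ℝ) * (Real.log (cst F v) + localHeight v d F x) with hg
  have hg0 : ∀ v, 0 ≤ g v := by
    intro v
    apply mul_nonneg (Nat.cast_nonneg _)
    have h1 : 0 < absv v (eval x F) := (absv v).pos_iff.2 hFx
    have h2 := Real.log_le_log h1 (absv_eval_le hF v x)
    have h3 : 0 < cst F v := zero_lt_one.trans_le (one_le_cst F v)
    rw [Real.log_mul h3.ne' (pow_pos (maxv_pos v hx) _).ne', Real.log_pow] at h2
    unfold localHeight
    linarith
  have f1 : HasFiniteSupport fun v : FinitePlace K =>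
      (wt (.inr v : Place K) : ℝ) * Real.log (cst F (.inr v)) := by
    simp only [wt, Nat.cast_one, one_mul]
    exact hasFiniteSupport_log (hasFiniteMulSupport_cst F)
  have f2 : HasFiniteSupport fun v : FinitePlace K =>
      (wt (.inr v : Place K) : ℝ) * Real.log (maxv (.inr v) x) := by
    simp only [wt, Nat.cast_one, one_mul]
    exact hasFiniteSupport_log (hasFiniteMulSupport_maxv hx)
  have f3 : HasFiniteSupport fun v : FinitePlace K =>
      (wt (.inr v : Place K) : ℝ) * Real.log (absv (.inr v) (eval x F)) := by
    simp only [wt, Nat.cast_one, one_mul]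
    exact hasFiniteSupport_log (FinitePlace.hasFiniteMulSupport hFx)
  have toPlace : ∀ {a : Place K → ℝ}, (HasFiniteSupport fun v : FinitePlace K => a (.inr v)) →
      HasFiniteSupport a := by
    intro a ha
    have h1 : (Set.range (Sum.inl : InfinitePlace K → Place K)).Finite := Set.finite_range _
    have h2 : (Sum.inr '' (support fun v : FinitePlace K => a (.inr v)) :
      Set (Place K)).Finite := Set.Finite.image _ ha
    refine (h1.union h2).subset ?_
    intro v hv
    rcases v with v | v
    · exact Or.inl ⟨v, rfl⟩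
    · exact Or.inr ⟨v, hv, rfl⟩
  have F1 := toPlace (a := fun v => (wt v : ℝ) * Real.log (cst F v)) f1
  have F2 := toPlace (a := fun v => (wt v : ℝ) * Real.log (maxv v x)) f2
  have F3 := toPlace (a := fun v => (wt v : ℝ) * Real.log (absv v (eval x F))) f3
  have hgeq : ∀ v, g v = ((wt v : ℝ) * Real.log (cst F v) +
      (d : ℝ) * ((wt v : ℝ) * Real.log (maxv v x))) -
      (wt v : ℝ) * Real.log (absv v (eval x F)) := by
    intro v
    simp only [hg, localHeight]
    ring
  have F2' : HasFiniteSupport fun v : Place K => (d : ℝ) * ((wt v : ℝ) * Real.log (maxv v x)) := by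
    refine Set.Finite.subset F2 ?_
    intro v hv h0
    apply hv
    simp only at h0 ⊢
    rw [h0, mul_zero]
  have F12 : HasFiniteSupport fun v : Place K => (wt v : ℝ) * Real.log (cst F v) +
      (d : ℝ) * ((wt v : ℝ) * Real.log (maxv v x)) := by
    refine (Set.Finite.union F1 F2').subset ?_
    intro v hv
    by_contra hcon
    simp only [Set.mem_union, mem_support, not_or, not_not] at hcon
    apply hv
    simp only
    rw [hcon.1, hcon.2, add_zero]
  have hsum : ∑ᶠ v, g v = ∑ᶠ v, (wt v : ℝ) * Real.log (cst F v) + d * Height.logHeight x := by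
    simp only [hgeq]
    rw [finsum_sub_distrib F12 F3, product_formula hFx, sub_zero, finsum_add_distrib F1 F2',
      ← mul_finsum _ _ , logHeight_eq hx]
  have hgfin : HasFiniteSupport g := by
    refine (Set.Finite.union F12 F3).subset ?_
    intro v hv
    by_contra hcon
    simp only [Set.mem_union, mem_support, not_or, not_not] at hcon
    apply hv
    rw [hgeq, hcon.1, hcon.2, sub_zero]
  have hle : ∑ v ∈ S, g v ≤ ∑ᶠ v, g v := by
    have hfin : (support g).Finite := hgfin
    rw [finsum_eq_sum_of_support_subset (s := hfin.toFinset ∪ S) g (by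
      intro v hv
      simp only [Finset.coe_union, Set.mem_union, Finset.mem_coe, Set.Finite.mem_toFinset]
      exact Or.inl hv)]
    exact Finset.sum_le_sum_of_subset_of_nonneg Finset.subset_union_right fun v _ _ => hg0 v
  calc ∑ v ∈ S, (wt v : ℝ) * localHeight v d F x ≤ ∑ v ∈ S, g v := by
        apply Finset.sum_le_sum
        intro v _
        simp only [hg]
        apply mul_le_mul_of_nonneg_left _ (Nat.cast_nonneg _)
        have := Real.log_nonneg (one_le_cst F v)
        linarith
    _ ≤ ∑ᶠ v, g v := hle
    _ = _ := by rw [hsum]; ring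

end Pool.Agent.Lib.MP_17a322_nt.Proj
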