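import Mathlib
import Pool.Agent.Lib.MP_17a322_nt.Proj.Liouville

/-!
Local analysis at one place, in a locally compact extension of `(K, |·|_v)`.
-/

namespace Pool.Agent.Lib.MP_17a322_nt.Proj

open NumberField Function MvPolynomial

variable {K : Type*} [Field K] [NumberField K] {n : ℕ}

theorem eval_smul_of_hom {F : MvPolynomial (Fin (n + 1)) K} {d : ℕ} (hF : F.IsHomogeneous d)
    (c : K) (x : Fin (n + 1) → K) : eval (c • x) F = c ^ d * eval x F := by
  rw [eval_eq, eval_eq, Finset.mul_sum]
  refine Finset.sum_congr rfl fun s hs => ?_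
  have h1 : ∏ i ∈ s.support, (c • x) i ^ s i = c ^ d * ∏ i ∈ s.support, x i ^ s i := by
    simp only [Pi.smul_apply, smul_eq_mul, mul_pow, Finset.prod_mul_distrib]
    rw [Finset.prod_pow_eq_pow_sum, ← hF.degree_eq_sum_deg_support hs]
  rw [h1]
  ring

theorem maxv_smul (v : Place K) (c : K) (x : Fin (n + 1) → K) :
    maxv v (c • x) = absv v c * maxv v x := by
  unfold maxv
  simp only [Pi.smul_apply, smul_eq_mul, map_mul]
  exact (Real.mul_iSup_of_nonneg ((absv v).nonneg c) _).symm

theorem localHeight_smul (v : Place K) {F : MvPolynomial (Fin (n + 1)) K} {d : ℕ}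
    (hF : F.IsHomogeneous d) {c : K} (hc : c ≠ 0) {x : Fin (n + 1) → K} (hx : x ≠ 0)
    (hFx : eval x F ≠ 0) : localHeight v d F (c • x) = localHeight v d F x := by
  unfold localHeight
  have h1 : 0 < absv v c := (absv v).pos_iff.2 hc
  have h2 : 0 < absv v (eval x F) := (absv v).pos_iff.2 hFx
  rw [maxv_smul, eval_smul_of_hom hF, map_mul, map_pow, Real.log_mul h1.ne' (maxv_pos v hx).ne',
    Real.log_mul (pow_pos h1 _).ne' h2.ne', Real.log_pow]
  ring

theorem exists_normal (v : Place K) {x : Fin (n + 1) → K} (hx : x ≠ 0) :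
    ∃ c : K, c ≠ 0 ∧ maxv v (c • x) = 1 := by
  obtain ⟨i, hi⟩ := exists_eq_ciSup_of_finite (f := fun i => absv v (x i))
  have h0 : absv v (x i) = maxv v x := hi
  have h1 : x i ≠ 0 := by
    intro h
    rw [h, map_zero] at h0
    exact (maxv_pos v hx).ne h0
  refine ⟨(x i)⁻¹, inv_ne_zero h1, ?_⟩
  rw [maxv_smul, map_inv₀, h0, inv_mul_cancel₀ (maxv_pos v hx).ne']

variable {L : Type*} [NormedField L] [Algebra K L]

/-- The image of a vector in `L`. -/
def emb (L : Type*) [NormedField L] [Algebra K L] (x : Fin (n + 1) → K) : Fin (n + 1) → L :=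
  fun i => algebraMap K L (x i)

theorem norm_emb {v : Place K} (hL : ∀ a : K, ‖algebraMap K L a‖ = absv v a)
    (x : Fin (n + 1) → K) : ‖emb L x‖ = maxv v x := by
  unfold maxv
  apply le_antisymm
  · rw [pi_norm_le_iff_of_nonneg (Real.iSup_nonneg_of_nonnegHomClass _ _)]
    intro i
    rw [emb, hL]
    exact Finite.le_ciSup (fun i => absv v (x i)) i
  · refine ciSup_le fun i => ?_
    rw [← hL]
    exact norm_le_pi_norm (emb L x) i

theorem aeval_emb (x : Fin (n + 1) → K) (F : MvPolynomial (Fin (n + 1)) K) :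
    aeval (emb L x) F = algebraMap K L (eval x F) := by
  rw [aeval_def, eval₂_eq_eval_map]
  have : emb L x = fun i => algebraMap K L (x i) := rfl
  rw [this]
  have h := map_eval (algebraMap K L) x F
  rw [h]
  rfl

theorem continuous_aeval (F : MvPolynomial (Fin (n + 1)) K) :
    Continuous fun q : Fin (n + 1) → L => aeval q F := by
  have : (fun q : Fin (n + 1) → L => aeval q F) =
      fun q => eval q (map (algebraMap K L) F) := by
    funext q
    rw [aeval_def, eval₂_eq_eval_map]
  rw [this]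
  exact MvPolynomial.continuous_eval _

theorem norm_aeval_emb {v : Place K} (hL : ∀ a : K, ‖algebraMap K L a‖ = absv v a)
    (x : Fin (n + 1) → K) (F : MvPolynomial (Fin (n + 1)) K) :
    ‖aeval (emb L x) F‖ = absv v (eval x F) := by
  rw [aeval_emb, hL]

end Pool.Agent.Lib.MP_17a322_nt.Proj
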