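import Mathlib
import Pool.Agent.Lib.MP_17a322_nt.Proj.Local

/-!
Vojta's inequality when few components of the divisor pass through the local points.
-/

namespace Pool.Agent.Lib.MP_17a322_nt.Proj

open NumberField Function MvPolynomial Filter
open scoped Topology

variable {K : Type*} [Field K] [NumberField K] {n r : ℕ}

/-- The components through a local point. -/
noncomputable def thru {L : Type*} [NormedField L] [Algebra K L]
    (F : Fin r → MvPolynomial (Fin (n + 1)) K) (Q : Fin (n + 1) → L) : Finset (Fin r) :=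
  open Classical in Finset.univ.filter fun i => aeval Q (F i) = 0

theorem mem_thru {L : Type*} [NormedField L] [Algebra K L]
    {F : Fin r → MvPolynomial (Fin (n + 1)) K} {Q : Fin (n + 1) → L} {i : Fin r} :
    i ∈ thru F Q ↔ aeval Q (F i) = 0 := by
  classical
  simp [thru]

theorem local_thru {v : Place K} {L : Type*} [NormedField L] [ProperSpace L] [Algebra K L]
    (hL : ∀ a : K, ‖algebraMap K L a‖ = absv v a) (𝒳 : Set (MvPolynomial (Fin (n + 1)) K))
    {d : Fin r → ℕ} (F : Fin r → MvPolynomial (Fin (n + 1)) K)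
    (hF : ∀ i, (F i).IsHomogeneous (d i)) (h𝒳 : ∀ G ∈ 𝒳, ∃ e, G.IsHomogeneous e) :
    ∃ C : ℝ, 0 ≤ C ∧ ∀ x : Fin (n + 1) → K, x ≠ 0 → (∀ G ∈ 𝒳, eval x G = 0) →
      (∀ i, eval x (F i) ≠ 0) → ∃ Q : Fin (n + 1) → L, Q ≠ 0 ∧ (∀ G ∈ 𝒳, aeval Q G = 0) ∧
        ∑ i, localHeight v (d i) (F i) x ≤
          ∑ i ∈ thru F Q, localHeight v (d i) (F i) x + C := by
  classical
  set X : Set (Fin (n + 1) → L) := Metric.sphere 0 1 ∩ ⋂ G ∈ 𝒳, {q | aeval q G = 0} with hX
  have hcomp : IsCompact X := by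
    apply (isCompact_sphere _ _).inter_right
    exact isClosed_biInter fun G _ => isClosed_eq (continuous_aeval G) continuous_const
  have key : ∃ C : ℝ, 0 ≤ C ∧ ∀ x : Fin (n + 1) → K, emb L x ∈ X →
      (∀ i, eval x (F i) ≠ 0) → ∃ Q : Fin (n + 1) → L, Q ≠ 0 ∧ (∀ G ∈ 𝒳, aeval Q G = 0) ∧
        ∀ i, i ∉ thru F Q → - Real.log (absv v (eval x (F i))) ≤ C := by
    refine hcomp.induction_on (p := fun s => ∃ C : ℝ, 0 ≤ C ∧ ∀ x : Fin (n + 1) → K,
      emb L x ∈ s → (∀ i, eval x (F i) ≠ 0) → ∃ Q : Fin (n + 1) → L, Q ≠ 0 ∧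
        (∀ G ∈ 𝒳, aeval Q G = 0) ∧
        ∀ i, i ∉ thru F Q → - Real.log (absv v (eval x (F i))) ≤ C) ?_ ?_ ?_ ?_
    · exact ⟨0, le_rfl, fun x hx => absurd hx (Set.notMem_empty _)⟩
    · rintro s t hst ⟨C, hC, h⟩
      exact ⟨C, hC, fun x hx => h x (hst hx)⟩
    · rintro s t ⟨C, hC, h⟩ ⟨C', hC', h'⟩
      refine ⟨max C C', hC.trans (le_max_left _ _), ?_⟩
      rintro x (hx | hx) hne
      · obtain ⟨Q, h1, h2, h3⟩ := h x hx hne
        exact ⟨Q, h1, h2, fun i hi => (h3 i hi).trans (le_max_left _ _)⟩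
      · obtain ⟨Q, h1, h2, h3⟩ := h' x hx hne
        exact ⟨Q, h1, h2, fun i hi => (h3 i hi).trans (le_max_right _ _)⟩
    · rintro Q ⟨hQ1, hQ2⟩
      have hQ0 : Q ≠ 0 := by
        rintro rfl
        simp at hQ1
      have hQX : ∀ G ∈ 𝒳, aeval Q G = 0 := by
        intro G hG
        simp only [Set.mem_iInter] at hQ2
        exact hQ2 G hG
      have hev : ∀ᶠ q in 𝓝 Q, ∀ i, i ∉ thru F Q → ‖aeval Q (F i)‖ / 2 < ‖aeval q (F i)‖ := by
        rw [Filter.eventually_all]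
        intro i
        by_cases hi : i ∈ thru F Q
        · exact Filter.Eventually.of_forall fun q h => absurd hi h
        · have hne : aeval Q (F i) ≠ 0 := fun h => hi (mem_thru.2 h)
          have hpos := norm_pos_iff.2 hne
          filter_upwards [(continuous_aeval (L := L) (F i)).norm.continuousAt.eventually_const_lt
            (by linarith : ‖aeval Q (F i)‖ / 2 < ‖aeval Q (F i)‖)] with q hq _
          exact hq
      obtain ⟨t, ht, htQ⟩ := hev.exists_mem
      refine ⟨t, mem_nhdsWithin_of_mem_nhds ht,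
        ∑ i, |Real.log (‖aeval Q (F i)‖ / 2)|, Finset.sum_nonneg fun _ _ => abs_nonneg _, ?_⟩
      intro x hx hne
      refine ⟨Q, hQ0, hQX, fun i hi => ?_⟩
      have h1 := htQ _ hx i hi
      rw [norm_aeval_emb hL] at h1
      have hne' : aeval Q (F i) ≠ 0 := fun h => hi (mem_thru.2 h)
      have hpos := norm_pos_iff.2 hne'
      have h2 := Real.log_le_log (by linarith) h1.le
      calc - Real.log (absv v (eval x (F i))) ≤ - Real.log (‖aeval Q (F i)‖ / 2) := by linarith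
        _ ≤ |Real.log (‖aeval Q (F i)‖ / 2)| := neg_le_abs _
        _ ≤ _ := Finset.single_le_sum (f := fun i => |Real.log (‖aeval Q (F i)‖ / 2)|)
            (fun _ _ => abs_nonneg _) (Finset.mem_univ i)
  obtain ⟨C, hC, hkey⟩ := key
  refine ⟨r * C, by positivity, ?_⟩
  intro x hx hxX hne
  obtain ⟨a, ha, ha1⟩ := exists_normal v hx
  have hmem : emb L (a • x) ∈ X := by
    refine ⟨?_, ?_⟩
    · rw [mem_sphere_zero_iff_norm, norm_emb hL, ha1]
    · simp only [Set.mem_iInter]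
      intro G hG
      change aeval (emb L (a • x)) G = 0
      obtain ⟨e, he⟩ := h𝒳 G hG
      rw [aeval_emb, eval_smul_of_hom he, hxX G hG, mul_zero, map_zero]
  have hne' : ∀ i, eval (a • x) (F i) ≠ 0 := by
    intro i
    rw [eval_smul_of_hom (hF i)]
    exact mul_ne_zero (pow_ne_zero _ ha) (hne i)
  obtain ⟨Q, hQ0, hQX, hQ⟩ := hkey _ hmem hne'
  refine ⟨Q, hQ0, hQX, ?_⟩
  have hsplit : ∑ i, localHeight v (d i) (F i) x = ∑ i ∈ thru F Q, localHeight v (d i) (F i) x +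
      ∑ i ∈ Finset.univ \ thru F Q, localHeight v (d i) (F i) x := by
    rw [add_comm]
    exact (Finset.sum_sdiff (Finset.subset_univ _)).symm
  rw [hsplit]
  gcongr
  calc ∑ i ∈ Finset.univ \ thru F Q, localHeight v (d i) (F i) x ≤
      ∑ i ∈ Finset.univ \ thru F Q, C := by
        apply Finset.sum_le_sum
        intro i hi
        rw [← localHeight_smul v (hF i) ha hx (hne i)]
        unfold localHeight
        rw [ha1, Real.log_one, mul_zero, zero_sub]
        exact hQ i (Finset.mem_sdiff.1 hi).2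
    _ ≤ r * C := by
        rw [Finset.sum_const, nsmul_eq_mul]
        apply mul_le_mul_of_nonneg_right _ hC
        have := Finset.card_le_univ (Finset.univ \ thru F Q)
        rw [Fintype.card_fin] at this
        exact_mod_cast this

/-- Vojta's inequality when the components through the local points have total degree at
most `κ`. -/
theorem degree_sum (S : Finset (Place K)) (L : Place K → Type*)
    [∀ v, NormedField (L v)] [∀ v, ProperSpace (L v)] [∀ v, Algebra K (L v)]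
    (hL : ∀ v ∈ S, ∀ a : K, ‖algebraMap K (L v) a‖ = absv v a)
    (𝒳 : Set (MvPolynomial (Fin (n + 1)) K)) (h𝒳 : ∀ G ∈ 𝒳, ∃ e, G.IsHomogeneous e)
    {d : Fin r → ℕ} (F : Fin r → MvPolynomial (Fin (n + 1)) K)
    (hF : ∀ i, (F i).IsHomogeneous (d i)) (κ : ℕ)
    (H : ∀ Q : (v : Place K) → Fin (n + 1) → L v,
      (∀ v ∈ S, Q v ≠ 0 ∧ ∀ G ∈ 𝒳, aeval (Q v) G = 0) →
      ∀ I : Finset (Fin r), (∀ i ∈ I, ∃ v ∈ S, aeval (Q v) (F i) = 0) → ∑ i ∈ I, d i ≤ κ) :
    ∃ C : ℝ, ∀ x : Fin (n + 1) → K, x ≠ 0 → (∀ G ∈ 𝒳, eval x G = 0) →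
      (∀ i, eval x (F i) ≠ 0) → ∑ i, proximity S (d i) (F i) x ≤ κ * height x + C := by
  classical
  have hloc : ∀ v : Place K, ∃ C : ℝ, 0 ≤ C ∧ (v ∈ S → ∀ x : Fin (n + 1) → K, x ≠ 0 →
      (∀ G ∈ 𝒳, eval x G = 0) → (∀ i, eval x (F i) ≠ 0) → ∃ Q : Fin (n + 1) → L v, Q ≠ 0 ∧
        (∀ G ∈ 𝒳, aeval Q G = 0) ∧ ∑ i, localHeight v (d i) (F i) x ≤
          ∑ i ∈ thru F Q, localHeight v (d i) (F i) x + C) := by
    intro v
    by_cases hv : v ∈ S
    · obtain ⟨C, hC, h⟩ := local_thru (hL v hv) 𝒳 F hF h𝒳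
      exact ⟨C, hC, fun _ => h⟩
    · exact ⟨0, le_rfl, fun h => absurd h hv⟩
  choose C hC hCx using hloc
  choose D hD hDx using fun i => liouville (hF i)
  refine ⟨(Module.finrank ℚ K : ℝ)⁻¹ * (∑ v ∈ S, wt v * C v + ∑ i, D i), ?_⟩
  intro x hx hxX hne
  have hQex : ∀ v : Place K, ∃ Q : Fin (n + 1) → L v, v ∈ S → (Q ≠ 0 ∧
        (∀ G ∈ 𝒳, aeval Q G = 0) ∧ ∑ i, localHeight v (d i) (F i) x ≤
          ∑ i ∈ thru F Q, localHeight v (d i) (F i) x + C v) := by
    intro v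
    by_cases hv : v ∈ S
    · obtain ⟨Q, h⟩ := hCx v hv x hx hxX hne
      exact ⟨Q, fun _ => h⟩
    · exact ⟨0, fun h => absurd h hv⟩
  choose Q hQ using hQex
  set I : Finset (Fin r) := Finset.univ.filter fun i => ∃ v ∈ S, aeval (Q v) (F i) = 0 with hI
  have hIκ : ∑ i ∈ I, d i ≤ κ := by
    apply H Q (fun v hv => ⟨(hQ v hv).1, (hQ v hv).2.1⟩)
    intro i hi
    exact (Finset.mem_filter.1 hi).2
  -- the main estimate
  have h1 : ∑ v ∈ S, (wt v : ℝ) * ∑ i, localHeight v (d i) (F i) x ≤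
      ∑ v ∈ S, (wt v : ℝ) * (∑ i ∈ thru F (Q v), localHeight v (d i) (F i) x + C v) :=
    Finset.sum_le_sum fun v hv => mul_le_mul_of_nonneg_left (hQ v hv).2.2 (Nat.cast_nonneg _)
  have h2 : ∑ v ∈ S, (wt v : ℝ) * (∑ i ∈ thru F (Q v), localHeight v (d i) (F i) x + C v) =
      ∑ i ∈ I, ∑ v ∈ S with i ∈ thru F (Q v), (wt v : ℝ) * localHeight v (d i) (F i) x +
        ∑ v ∈ S, wt v * C v := by
    simp only [mul_add, Finset.sum_add_distrib, Finset.mul_sum]
    congr 1
    have e1 : ∀ v ∈ S, ∑ i ∈ thru F (Q v), (wt v : ℝ) * localHeight v (d i) (F i) x =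
        ∑ i ∈ I, if i ∈ thru F (Q v) then (wt v : ℝ) * localHeight v (d i) (F i) x else 0 := by
      intro v hv
      rw [← Finset.sum_filter]
      apply Finset.sum_congr _ fun _ _ => rfl
      ext i
      simp only [Finset.mem_filter, hI, Finset.mem_univ, true_and]
      exact ⟨fun h => ⟨⟨v, hv, mem_thru.1 h⟩, h⟩, fun h => h.2⟩
    rw [Finset.sum_congr rfl e1, Finset.sum_comm]
    refine Finset.sum_congr rfl fun i _ => ?_
    rw [Finset.sum_filter]
  have h3 : ∑ i ∈ I, ∑ v ∈ S with i ∈ thru F (Q v), (wt v : ℝ) * localHeight v (d i) (F i) x ≤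
      κ * Height.logHeight x + ∑ i, D i := by
    calc _ ≤ ∑ i ∈ I, (d i * Height.logHeight x + D i) :=
          Finset.sum_le_sum fun i _ => hDx i x hx (hne i) _
      _ = (∑ i ∈ I, d i : ℕ) * Height.logHeight x + ∑ i ∈ I, D i := by
          rw [Finset.sum_add_distrib, ← Finset.sum_mul]
          push_cast
          rfl
      _ ≤ κ * Height.logHeight x + ∑ i, D i :=
          add_le_add (mul_le_mul_of_nonneg_right (by exact_mod_cast hIκ)
            (Height.logHeight_nonneg x)) (Finset.sum_le_univ_sum_of_nonneg fun i => hD i)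
  have h4 : ∑ i, proximity S (d i) (F i) x = (Module.finrank ℚ K : ℝ)⁻¹ *
      ∑ v ∈ S, (wt v : ℝ) * ∑ i, localHeight v (d i) (F i) x := by
    unfold proximity
    rw [← Finset.mul_sum, Finset.sum_comm]
    simp only [Finset.mul_sum]
  rw [h4]
  unfold height
  calc _ ≤ (Module.finrank ℚ K : ℝ)⁻¹ *
        (κ * Height.logHeight x + ∑ i, D i + ∑ v ∈ S, wt v * C v) := by
        apply mul_le_mul_of_nonneg_left _ (by positivity)
        linarith
    _ = _ := by ring

end Pool.Agent.Lib.MP_17a322_nt.Proj
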